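import Pool.Agent.Lib.MP_ab8df0_nt.T.B11a.R0

/-! The result of the computation. -/

set_option maxRecDepth 100000

namespace Pool.Agent.Lib.MP_ab8df0_nt.T.B11a

open Pool.Agent.Lib.MP_ab8df0_nt.B Pool.Agent.Lib.MP_ab8df0_nt.P

theorem core {K : Type} [Field K] [NumberField K] {a : K} {pl : List (Place K)} {ph : List (K →+* ℝ)}
    {w : List (IsDedekindDomain.HeightOneSpectrum (NumberField.RingOfIntegers K))}
    (hP : Pack K FDL1 a pl ph w) {G : Prop} (t g E xi : K)
    (hdisc : Q2 0 (t - ((0 : ℤ) : K)))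
    (hG : g = ((2 * ((1 + (t * cval a vs 5)))⁻¹) - 1))
    (hE : E ^ 2 = (1 + (3 * ((g) ^ 2))))
    (hclsE : IsSquare (1 + (3 * ((g) ^ 2))))
    (hclsR : IsSquare (cval a vs 15 * E))
    (hxi : xi ^ 2 = (1 + E))
    (hclsX : IsSquare (1 + E))
    (hcls : ∀ v : IsDedekindDomain.HeightOneSpectrum (NumberField.RingOfIntegers K), ((6 : ℕ) : NumberField.RingOfIntegers K) ∉ v.asIdeal →
      ∃ k : ℤ, v.valuation K (1 + xi) = WithZero.exp (2 * k))
    (hclsre : ∀ i ∈ [0], ∀ φ, ph[i]? = some φ → 0 < φ (1 + xi))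
    (hout0 : IsSquare ((1 + xi) * (ev a dl0.1 / (dl0.2 : K))) → G)
    (hout1 : IsSquare ((1 + xi) * (ev a dl1.1 / (dl1.2 : K))) → G) :
    G := by
  refine hP.cover (fr := [t, g, E, xi]) (M := M) (cs := [[ce 0 136 62 1 0x26bebcf8ec08105d]]) rfl auto
    (l := [(0, 0)]) (by decide) ?_ hdisc fun tt kk hq => ?_
  · exact List.forall_mem_cons.2 ⟨⟨_, r0⟩, fun _ h => absurd h List.not_mem_nil⟩
  · refine List.forall_mem_cons.2 ⟨?_, List.forall_mem_cons.2 ⟨?_, List.forall_mem_cons.2 ⟨?_, List.forall_mem_cons.2 ⟨?_, List.forall_mem_cons.2 ⟨?_, List.forall_mem_cons.2 ⟨?_, List.forall_mem_cons.2 ⟨?_, List.forall_mem_cons.2 ⟨?_, List.forall_mem_cons.2 ⟨?_, List.forall_mem_cons.2 ⟨?_, fun _ h => absurd h List.not_mem_nil⟩⟩⟩⟩⟩⟩⟩⟩⟩⟩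
    · exact hq
    · show g = ((((2 : ℤ) : K) * ((((1 : ℤ) : K) + (t * cval a vs 5)))⁻¹) + (-(((1 : ℤ) : K))))
      try push_cast
      linear_combination hG
    · show E ^ 2 = (((1 : ℤ) : K) + (((3 : ℤ) : K) * ((g) ^ 2)))
      try push_cast
      linear_combination hE
    · exact span_of_isSquare (x := (((1 : ℤ) : K) + (((3 : ℤ) : K) * ((g) ^ 2)))) ((by push_cast; ring : (((1 : ℤ) : K) + (((3 : ℤ) : K) * ((g) ^ 2))) = (1 + (3 * ((g) ^ 2)))) ▸ hclsE)
    · exact span_of_isSquare (x := (cval a vs 15 * E)) ((by push_cast; ring : (cval a vs 15 * E) = (cval a vs 15 * E)) ▸ hclsR)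
    · show xi ^ 2 = (((1 : ℤ) : K) + E)
      try push_cast
      linear_combination hxi
    · exact span_of_isSquare (x := (((1 : ℤ) : K) + E)) ((by push_cast; ring : (((1 : ℤ) : K) + E) = (1 + E)) ▸ hclsX)
    · exact fun h0 => hP.span_cut (nf := 4) (vs := vs) (x := (((1 : ℤ) : K) + xi)) (fr := [t, g, E, xi]) rfl k0 (by decide +kernel) h0 ((by push_cast; ring : (((1 : ℤ) : K) + xi) = (1 + xi)) ▸ hcls) ((by push_cast; ring : (((1 : ℤ) : K) + xi) = (1 + xi)) ▸ hclsre) (fun _ h => absurd h List.not_mem_nil)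
    · exact fun h0 => hout0 ((by push_cast; ring : (((1 : ℤ) : K) + xi) = (1 + xi)) ▸ hP.out (nf := 4) (vs := vs) (x := (((1 : ℤ) : K) + xi)) (fr := [t, g, E, xi]) rfl dl0 ([8, -102, 438, -1101, 1580, -1552, 1088, -632, 292, -134, 26, -15], 512) (by decide +kernel) h0)
    · exact fun h0 => hout1 ((by push_cast; ring : (((1 : ℤ) : K) + xi) = (1 + xi)) ▸ hP.out (nf := 4) (vs := vs) (x := (((1 : ℤ) : K) + xi)) (fr := [t, g, E, xi]) rfl dl1 ([1361974106153977926411, -17139729057380960849644, 67220655194548993657865, -170038305048293808013238, 242390415474051591620574, -239733268003570840369928, 167357578278499585715410, -97816316612410058169276, 44913422386856564116747, -20802875064374198765612, 3986915275095337802641, -2330252211265899370918], 52776558133248) (by decide +kernel) h0)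

end Pool.Agent.Lib.MP_ab8df0_nt.T.B11a
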