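import Pool.Agent.Lib.MP_ab8df0_nt.B.Auto2
import Pool.Agent.Lib.MP_ab8df0_nt.P.L1D

/-! Constants and hypotheses. -/

set_option maxRecDepth 100000

namespace Pool.Agent.Lib.MP_ab8df0_nt.T.B11a

open Pool.Agent.Lib.MP_ab8df0_nt.B Pool.Agent.Lib.MP_ab8df0_nt.P

def dl0 : List ℤ × ℕ := ([-34, 292, -657, 695, -420, 112, 18, -46, 38, -28, 3, -5], 16)

def dl1 : List ℤ × ℕ := ([-75, 310, -866, 1009, -746, 220, -12, -90, 33, -66, -2, -11], 16)

def vs : Cs := [([0, 1], 1), ([], 1), ([], 1), ([], 1), ([], 1), 
  ([34, -177, 611, -759, 584, -178, 22, 74, -18, 55, 3, 9], 16),
  ([-11408, 40304, -101216, 116064, -83616, 23392, -960, -10048, 4208, -7056, -96, -1184], 1),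
  ([203, -683, 2114, -2587, 1970, -566, 56, 234, -81, 173, 6, 29], 1),
  ([-9632, 32928, -86944, 99184, -71744, 20352, -1344, -9120, 3168, -6304, -160, -1040], 1),
  ([8016, -33136, 90272, -102704, 66656, -16480, 832, 8608, -4336, 5008, -224, 848], 1),
  ([61, -367, 1241, -1540, 1130, -330, 18, 124, -59, 93, 1, 16], 1),
  ([-3104, 4816, -26256, 38032, -34688, 10848, -1696, -3616, 800, -3312, -272, -560], 1),
  ([118528, -231168, -650496, 1347840, -1066496, 279040, -73216, -89600, 62208, -73472, 1792, -14080], 1),
  ([77660160, -80740352, 96272384, -494141440, 615907328, -213385216, -20054016, -16252928, -47382528, 40370176, 1638400, 9175040], 1),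
  ([31260672, -73662464, 122224640, 684851200, -1591869440, 790102016, 10878976, 786432, -4653056, -185860096, -35323904, -33947648], 1),
  ([186, -744, 2007, -2308, 1668, -480, 26, 204, -78, 144, 3, 24], 8)]

def M (t0 : ℤ) (k0 : ℕ) : List Hyp := [
  .disc 1 t0 k0,
  .eq 2 (.add (.mul (.num 2) (.inv (.add (.num 1) (.mul (.var 1) (.var 5))))) (.neg (.num 1))),
  .sqr 3 (.add (.num 1) (.mul (.num 3) (.sq (.var 2)))),
  .cls (.add (.num 1) (.mul (.num 3) (.sq (.var 2)))) [],
  .cls (.mul (.var 15) (.var 3)) [],
  .sqr 4 (.add (.num 1) (.var 3)),
  .cls (.add (.num 1) (.var 3)) [],
  .cls (.add (.num 1) (.var 4)) [6, 7, 8, 9, 10, 11, 12, 13, 14],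
  .out (.add (.num 1) (.var 4)) [6, 7, 8, 9, 10, 11, 12, 13, 14] [false, true, true, false, false, false, false, false, false],
  .out (.add (.num 1) (.var 4)) [6, 7, 8, 9, 10, 11, 12, 13, 14] [false, true, true, true, true, false, true, true, true]]

def k0 : Cut := ⟨[0], [], [[true, false, false, false, false, false, false, false, false, false]], [[true, false, false, false, false, false, false, true, false, false], [false, false, false, false, false, true, false, false, false, false], [true, false, true, false, false, false, false, false, false, false], [false, false, false, false, false, true, false, false, false, true], [false, true, false, false, false, false, false, false, false, false], [false, true, false, false, false, false, false, false, true, false], [false, true, false, false, false, true, true, false, false, false], [false, true, true, true, false, true, true, false, false, false], [false, true, false, true, true, false, true, false, false, true]], [[true, false, false, false, false, false, false, false, false, false], [false, false, false, false, false, true, false, false, false, false], [true, false, false, true, false, false, false, false, false, false], [true, false,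 false, true, false, false, false, true, true, false], [true, false, false, true, true, false, false, false, true, true], [false, false, true, false, false, false, false, false, false, false], [false, false, true, false, false, true, false, true, false, false], [true, true, false, false, false, false, false, false, false, false], [false, false, false, false, false, true, true, false, false, false], [false, false, true, false, true, false, false, false, false, false]]⟩

def A : List AH := [
  ]

theorem auto : (baseOk 4 vs && A.all (AH.ok FDL1 4 vs)) = true := by decide +kernel

end Pool.Agent.Lib.MP_ab8df0_nt.T.B11a
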