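import Pool.Agent.Lib.MP_ab8df0_nt.T.B11a.Def

/-! Proof trees. -/

set_option maxRecDepth 100000

namespace Pool.Agent.Lib.MP_ab8df0_nt.T.B11a

open Pool.Agent.Lib.MP_ab8df0_nt.B Pool.Agent.Lib.MP_ab8df0_nt.P

def r0_0 : Tree := .set 5 [[ce (-4) 136 1 1 0x1]] (.set 6 [[]] (.set 7 [[]] (.set 8 [[]] (.set 9 [[]] (.set 10 [[]] (.set 11 [[]] (.set 12 [[]] (.set 13 [[]] (.set 14 [[]] (.set 15 [[ce (-3) 136 1 1 0x1]] (.piv [] [] (.piv [6, 7, 8, 9, 10, 11, 12, 13, 14] [[ce 0 136 1 0 0x0], [ce (-3) 136 1 12 0x800], [ce (-5) 136 1 11 0x400], [ce (-5) 136 5 12 0x4cc88d1a14f2818], [ce (-3) 136 5 12 0xbd38444b02b59c8], [ce (-5) 136 5 12 0x4cc88d1a14f2818], [ce (-7) 136 5 12 0x46d60c004ca209e], [ce (-11) 136 5 12 0xec7b74fa0af09d8], [ce (-11) 136 5 12 0xcd49d1c01827014]] (.disc 16 (.split 16 (.split 16 (.set 17 [[ce 0 136 1 1 0x1]] (.root 18 0 [] (ce 1 136 1 1 0x1) (.dead 20 26 [[]] [] [ce (-1)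 136 4 12 0x8881f5aeafd3]) (.dead 20 26 [[]] [] [ce (-1) 136 4 12 0x8881f5aeafd3]))) (.set 17 [[ce 0 136 5 12 0x6228ce721206201]] (.dead 19 26 [[]] [] [ce (-1) 136 5 12 0xda6d130b822100d]))) (.split 16 (.split 16 (.split 16 (.set 17 [[ce 0 136 7 12 0x9d01f17946ac23907083b]] (.root 18 0 [] (ce 1 136 7 12 0x732371fbeddd2671cfa0d) (.dead 20 26 [[]] [] [ce (-1) 136 5 12 0xa70641898805581]) (.root 21 0 [] (ce 0 136 7 12 0xd3975365e97358c588551) (.conc 23 27 24 [[]] [ce (-7) 136 5 12 0x542d40bd1c328c4]) (.dead 23 27 [[]] [false, true, true, false, true, false, false, true, true] [ce (-30) 136 5 12 0x522abdfb92f3106])))) (.set 17 [[ce 0 136 7 12 0xfc82777f528c0b91f284b]] (.root 18 0 [] (ce 1 136 7 12 0xeb21b5bffee57230ae255) (.dead 20 26 [[]] [] [ce (-1) 136 5 12 0xa70641898805581]) (.root 21 0 [] (ce 0 136 7 12 0x72a5542fe8470cc468161) (.conc 23 27 24 [[]] [ce (-7) 136 5 12 0xb7a5c6e558168d8])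 (.dead 23 27 [[]] [false, true, true, false, true, false, false, true, true] [ce (-30) 136 5 12 0x260b9ae29a5631e]))))) (.set 17 [[ce 0 136 6 12 0x9b01b78b2e1720cc23]] (.root 18 0 [] (ce 1 136 6 12 0xbde8afec1280723129) (.dead 20 26 [[]] [] [ce (-1) 136 5 12 0xc68f16a00071603]) (.dead 20 26 [[]] [] [ce (-1) 136 5 12 0x743d27d44653795])))) (.split 16 (.set 17 [[ce 0 136 6 12 0xa88093da623da14007]] (.root 18 0 [] (ce 1 136 6 12 0xdb29e35d99e091c15) (.dead 20 26 [[]] [] [ce (-1) 136 5 12 0x4dbe57a78f71451]) (.dead 20 26 [[]] [] [ce (-1) 136 5 12 0xa96080cbc375611]))) (.split 16 (.set 17 [[ce 0 136 7 12 0x84e05431df9431d01306f]] (.root 18 0 [] (ce 1 136 7 12 0x5aa7b220acef60ecb6835) (.dead 20 26 [[]] [] [ce (-1) 136 5 12 0xdd8f85ac05234d9]) (.root 21 0 [] (ce 0 136 7 12 0x3a5186e5b6c80a9113169) (.conc 23 27 25 [[]] [ce (-40) 136 5 12 0x38ef30b291fff06]) (.dead 23 27 [[]] [false, true,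 true, true, false, false, true, false, false] [ce (-17) 136 5 12 0x8d9b060cccc05e0])))) (.set 17 [[ce 0 136 7 12 0xe460d037cbb419d19107f]] (.root 18 0 [] (ce 1 136 7 12 0x5225f2e3bdef74adb5035) (.dead 20 26 [[]] [] [ce (-1) 136 5 12 0xdd8f85ac05234d9]) (.root 21 0 [] (ce 0 136 7 12 0x6bc10620aff47e11b3571) (.conc 23 27 25 [[]] [ce (-40) 136 5 12 0x6e4a97e819ac55a]) (.dead 23 27 [[]] [false, true, true, true, false, false, true, false, false] [ce (-17) 136 5 12 0x383aa45d0047522])))))))))))))))))))))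

theorem r0 : run FDL1.ds FDL1.es [[ce 0 136 62 1 0x26bebcf8ec08105d]] vs.length (fullH 4 vs (M 0 0) A) r0_0 = true := by
  decide +kernel

end Pool.Agent.Lib.MP_ab8df0_nt.T.B11a
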